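import Mathlib

set_option autoImplicit false

/-! A recursively inseparable pair, with stages. -/

namespace Pool.Agent.Y548.OF

open Encodable
open Nat.Partrec (Code)

/-- the value of the diagonal computation `φ_n(n)` at stage `t` -/
def dg (n t : ℕ) : Option ℕ := (Denumerable.ofNat Code n).evaln t n

theorem dg_prim : Primrec₂ dg := by
  have : Primrec fun x : ℕ × ℕ => (Denumerable.ofNat Code x.1).evaln x.2 x.1 :=
    Nat.Partrec.Code.primrec_evaln.comp
      ((Primrec.snd.pair ((Primrec.ofNat Code).comp Primrec.fst)).pair Primrec.fst)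
  exact this

theorem dg_mono {n t t' v : ℕ} (h : t ≤ t') (hv : dg n t = some v) : dg n t' = some v :=
  Nat.Partrec.Code.evaln_mono h hv

/-- status of `k = ⟨n, t⟩`: `1` (resp. `2`) if `φ_n(n)` converges first at stage `t+1` with value
`0` (resp. `1`), and `0` otherwise -/
def st (k : ℕ) : ℕ :=
  if dg k.unpair.1 k.unpair.2 = none ∧ dg k.unpair.1 (k.unpair.2 + 1) = some 0 then 1
  else if dg k.unpair.1 k.unpair.2 = none ∧ dg k.unpair.1 (k.unpair.2 + 1) = some 1 then 2
  else 0

theorem st_prim : Primrec st := by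
  have h1 : Primrec fun k : ℕ => dg k.unpair.1 k.unpair.2 :=
    dg_prim.comp (Primrec.fst.comp Primrec.unpair) (Primrec.snd.comp Primrec.unpair)
  have h2 : Primrec fun k : ℕ => dg k.unpair.1 (k.unpair.2 + 1) :=
    dg_prim.comp (Primrec.fst.comp Primrec.unpair)
      (Primrec.succ.comp (Primrec.snd.comp Primrec.unpair))
  have e1 : PrimrecPred fun k : ℕ => dg k.unpair.1 k.unpair.2 = none :=
    Primrec.eq.comp h1 (Primrec.const none)
  have e2 : PrimrecPred fun k : ℕ => dg k.unpair.1 (k.unpair.2 + 1) = some 0 :=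
    Primrec.eq.comp h2 (Primrec.const (some 0))
  have e3 : PrimrecPred fun k : ℕ => dg k.unpair.1 (k.unpair.2 + 1) = some 1 :=
    Primrec.eq.comp h2 (Primrec.const (some 1))
  exact Primrec.ite (e1.and e2) (Primrec.const 1)
    (Primrec.ite (e1.and e3) (Primrec.const 2) (Primrec.const 0))

theorem st_one {k : ℕ} : st k = 1 ↔
    dg k.unpair.1 k.unpair.2 = none ∧ dg k.unpair.1 (k.unpair.2 + 1) = some 0 := by
  unfold st
  split_ifs with h1 h2 <;> simp [h1]

theorem st_two {k : ℕ} : st k = 2 ↔
    dg k.unpair.1 k.unpair.2 = none ∧ dg k.unpair.1 (k.unpair.2 + 1) = some 1 := by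
  unfold st
  split_ifs with h1 h2
  · simp [h1]
  · simp [h2]
  · simp [h2]

theorem st_cases (k : ℕ) : st k = 0 ∨ st k = 1 ∨ st k = 2 := by
  unfold st
  split_ifs <;> simp

theorem st_ne_zero {k : ℕ} (h : st k ≠ 0) :
    dg k.unpair.1 k.unpair.2 = none ∧ ∃ v, dg k.unpair.1 (k.unpair.2 + 1) = some v := by
  rcases st_cases k with h' | h' | h'
  · exact absurd h' h
  · exact ⟨(st_one.1 h').1, _, (st_one.1 h').2⟩
  · exact ⟨(st_two.1 h').1, _, (st_two.1 h').2⟩

theorem st_unique {k k' : ℕ} (h : st k ≠ 0) (h' : st k' ≠ 0) (hn : k.unpair.1 = k'.unpair.1) :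
    k = k' := by
  obtain ⟨h1, v, h2⟩ := st_ne_zero h
  obtain ⟨h1', v', h2'⟩ := st_ne_zero h'
  rw [← hn] at h1' h2'
  have : k.unpair.2 = k'.unpair.2 := by
    rcases Nat.lt_trichotomy k.unpair.2 k'.unpair.2 with hlt | heq | hgt
    · have := dg_mono (Nat.succ_le_of_lt hlt) h2
      rw [h1'] at this; cases this
    · exact heq
    · have := dg_mono (Nat.succ_le_of_lt hgt) h2'
      rw [h1] at this; cases this
  rw [← Nat.pair_unpair k, ← Nat.pair_unpair k', hn, this]

/-- the first set of the inseparable pair -/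
def SA (n : ℕ) : Prop := ∃ t, st (Nat.pair n t) = 1

/-- the second set of the inseparable pair -/
def SB (n : ℕ) : Prop := ∃ t, st (Nat.pair n t) = 2

theorem not_SA_of_SB {n : ℕ} (h : SB n) : ¬ SA n := by
  rintro ⟨t, ht⟩
  obtain ⟨t', ht'⟩ := h
  have := st_unique (k := Nat.pair n t) (k' := Nat.pair n t') (by omega) (by omega) (by simp)
  rw [this, ht'] at ht
  omega

theorem SA_of_st {k : ℕ} (h : st k = 1) : SA k.unpair.1 := ⟨k.unpair.2, by simpa using h⟩

theorem SB_of_st {k : ℕ} (h : st k = 2) : SB k.unpair.1 := ⟨k.unpair.2, by simpa using h⟩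

theorem exists_first {n v : ℕ} (h : v ∈ (Denumerable.ofNat Code n).eval n) :
    ∃ t, dg n t = none ∧ dg n (t + 1) = some v := by
  classical
  obtain ⟨k, hk⟩ := Nat.Partrec.Code.evaln_complete.1 h
  have hk : dg n k = some v := hk
  have hex : ∃ t, ∃ w, dg n t = some w := ⟨k, v, hk⟩
  let t := Nat.find hex
  obtain ⟨w, hw⟩ := Nat.find_spec hex
  have h0 : t ≠ 0 := by
    intro h0
    have hw' : dg n t = some w := hw
    rw [h0] at hw'
    simp [dg, Code.evaln] at hw'
  obtain ⟨t', ht'⟩ := Nat.exists_eq_succ_of_ne_zero h0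
  have h1 : dg n t' = none := by
    have := Nat.find_min hex (m := t') (by omega)
    rw [Option.eq_none_iff_forall_ne_some]
    intro w' hw'
    exact this ⟨w', hw'⟩
  have hw' : dg n (t' + 1) = some w := by
    have : t = t' + 1 := ht'
    rw [← this]; exact hw
  refine ⟨t', h1, ?_⟩
  have e1 := dg_mono (le_max_left (t' + 1) k) hw'
  have e2 := dg_mono (le_max_right (t' + 1) k) hk
  rw [e1] at e2
  rw [hw', e2]

/-- The two sets are recursively inseparable. -/
theorem insep {S : ℕ → Bool} (hS : Computable S) (hA : ∀ n, SA n → S n = true)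
    (hB : ∀ n, SB n → S n = false) : False := by
  have hf : Computable fun n => (S n).toNat := by
    have : Computable fun n => cond (S n) 1 0 :=
      Computable.cond hS (Computable.const 1) (Computable.const 0)
    exact this.of_eq fun n => by cases S n <;> rfl
  obtain ⟨c, hc⟩ := Nat.Partrec.Code.exists_code.1 (Partrec.nat_iff.1 hf.partrec)
  have hc' : ∀ n, (S n).toNat ∈ c.eval n := by
    intro n
    rw [hc]
    simp
  have h1 : (S (encode c)).toNat ∈ (Denumerable.ofNat Code (encode c)).eval (encode c) := by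
    rw [Denumerable.ofNat_encode]
    exact hc' _
  obtain ⟨t, h2, h3⟩ := exists_first h1
  cases hb : S (encode c)
  · have : SA (encode c) := ⟨t, st_one.2 (by simpa [hb] using ⟨h2, by simpa [hb] using h3⟩)⟩
    rw [hA _ this] at hb; cases hb
  · have : SB (encode c) := ⟨t, st_two.2 (by simpa [hb] using ⟨h2, by simpa [hb] using h3⟩)⟩
    rw [hB _ this] at hb; cases hb

end Pool.Agent.Y548.OF
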