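import Pool.Agent.KS6_49.L8.Y548.OF.Pres

set_option autoImplicit false

/-! Low orderings of the computable field. -/

namespace Pool.Agent.Y548.OF

open Encodable Pool.Agent.Helper227

/-- the bad strings: those that violate one of the conditions on positive cones -/
def BadS (σ : List Bool) : Prop :=
  (∃ p : ℕ × ℕ, σ[p.1]? = some true ∧ σ[p.2]? = some true ∧ σ[ta p.1 p.2]? = some false) ∨
  (∃ p : ℕ × ℕ, σ[p.1]? = some true ∧ σ[p.2]? = some true ∧ σ[tm p.1 p.2]? = some false) ∨
  (∃ t : ℕ, σ[t]? = some true ∧ Eqv t (tg 0 0)) ∨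
  (∃ t : ℕ, ¬ Eqv t (tg 0 0) ∧ σ[t]? = some false ∧ σ[tm (tg 1 0) t]? = some false) ∨
  (∃ p : ℕ × ℕ, σ[p.1]? = some true ∧ σ[p.2]? = some false ∧ Eqv p.1 p.2)

theorem getq_prim {α : Type*} [Primcodable α] {f : α → List Bool} {g : α → ℕ} (b : Bool)
    (hf : Primrec f) (hg : Primrec g) : PrimrecPred fun a => (f a)[g a]? = some b :=
  Primrec.eq.comp (Primrec.list_getElem?.comp hf hg) (Primrec.const _)

theorem s1_BadS : S1 BadS := by
  have a1 : Primrec fun x : List Bool × (ℕ × ℕ) => x.2.1 := Primrec.fst.comp Primrec.snd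
  have a2 : Primrec fun x : List Bool × (ℕ × ℕ) => x.2.2 := Primrec.snd.comp Primrec.snd
  unfold BadS
  refine S1.or (S1.ex (p := fun (σ : List Bool) (p : ℕ × ℕ) =>
    σ[p.1]? = some true ∧ σ[p.2]? = some true ∧ σ[ta p.1 p.2]? = some false)
    (S1.of_prim ((getq_prim _ Primrec.fst a1).and ((getq_prim _ Primrec.fst a2).and
      (getq_prim _ Primrec.fst (pta a1 a2)))))) ?_
  refine S1.or (S1.ex (p := fun (σ : List Bool) (p : ℕ × ℕ) =>
    σ[p.1]? = some true ∧ σ[p.2]? = some true ∧ σ[tm p.1 p.2]? = some false)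
    (S1.of_prim ((getq_prim _ Primrec.fst a1).and ((getq_prim _ Primrec.fst a2).and
      (getq_prim _ Primrec.fst (ptm a1 a2)))))) ?_
  refine S1.or (S1.ex (p := fun (σ : List Bool) (t : ℕ) =>
    σ[t]? = some true ∧ Eqv t (tg 0 0)) (S1.and (S1.of_prim (getq_prim _ Primrec.fst Primrec.snd))
      (s1_Eqv.comp (f := fun x : List Bool × ℕ => (x.2, tg 0 0))
        (Primrec.snd.pair (Primrec.const _))))) ?_
  refine S1.or (S1.ex (p := fun (σ : List Bool) (t : ℕ) =>
    ¬ Eqv t (tg 0 0) ∧ σ[t]? = some false ∧ σ[tm (tg 1 0) t]? = some false) (S1.and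
      (s1_nEqv.comp (f := fun x : List Bool × ℕ => (x.2, tg 0 0))
        (Primrec.snd.pair (Primrec.const _)))
      (S1.of_prim ((getq_prim _ Primrec.fst Primrec.snd).and
        (getq_prim _ Primrec.fst (ptm (Primrec.const _) Primrec.snd)))))) ?_
  exact S1.ex (p := fun (σ : List Bool) (p : ℕ × ℕ) =>
    σ[p.1]? = some true ∧ σ[p.2]? = some false ∧ Eqv p.1 p.2)
    ((S1.and (S1.of_prim (getq_prim true Primrec.fst a1)) (S1.and
      (S1.of_prim (getq_prim false Primrec.fst a2)) (s1_Eqv.comp Primrec.snd))))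

theorem pre_some {X : ℕ → Bool} {n i : ℕ} {b : Bool} (h : (pre X n)[i]? = some b) : X i = b := by
  by_cases hi : i < n
  · rw [pre_getElem? X n i hi] at h
    simpa using h
  · rw [pre_getElem?_none X n i (by omega)] at h
    cases h

/-- positive cones on the presented field -/
structure Cone (X : ℕ → Bool) : Prop where
  add : ∀ s t, X s = true → X t = true → X (ta s t) = true
  mul : ∀ s t, X s = true → X t = true → X (tm s t) = true
  zero : ∀ t, X t = true → ¬ Eqv t (tg 0 0)
  tot : ∀ t, ¬ Eqv t (tg 0 0) → X t = true ∨ X (tm (tg 1 0) t) = true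
  congr : ∀ s t, Eqv s t → X s = true → X t = true

theorem cone_of_pre {X : ℕ → Bool} (h : ∀ n, ¬ BadS (pre X n)) : Cone X := by
  constructor
  · intro s t hs ht
    by_contra hc
    rw [Bool.not_eq_true] at hc
    refine h (max (max s t) (ta s t) + 1) (Or.inl ⟨(s, t), ?_, ?_, ?_⟩)
    · rw [pre_getElem? _ _ _ (by simp only; omega), hs]
    · rw [pre_getElem? _ _ _ (by simp only; omega), ht]
    · rw [pre_getElem? _ _ _ (by simp only; omega), hc]
  · intro s t hs ht
    by_contra hc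
    rw [Bool.not_eq_true] at hc
    refine h (max (max s t) (tm s t) + 1) (Or.inr (Or.inl ⟨(s, t), ?_, ?_, ?_⟩))
    · rw [pre_getElem? _ _ _ (by simp only; omega), hs]
    · rw [pre_getElem? _ _ _ (by simp only; omega), ht]
    · rw [pre_getElem? _ _ _ (by simp only; omega), hc]
  · intro t ht he
    refine h (t + 1) (Or.inr (Or.inr (Or.inl ⟨t, ?_, he⟩)))
    rw [pre_getElem? _ _ _ (by omega), ht]
  · intro t ht
    by_contra hc
    push Not at hc
    simp only [ne_eq, Bool.not_eq_true] at hc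
    refine h (max t (tm (tg 1 0) t) + 1) (Or.inr (Or.inr (Or.inr (Or.inl ⟨t, ht, ?_, ?_⟩))))
    · rw [pre_getElem? _ _ _ (by omega), hc.1]
    · rw [pre_getElem? _ _ _ (by omega), hc.2]
  · intro s t he hs
    by_contra hc
    rw [Bool.not_eq_true] at hc
    refine h (max s t + 1) (Or.inr (Or.inr (Or.inr (Or.inr ⟨(s, t), ?_, ?_, he⟩))))
    · rw [pre_getElem? _ _ _ (by simp only; omega), hs]
    · rw [pre_getElem? _ _ _ (by simp only; omega), hc]

theorem pre_of_cone {X : ℕ → Bool} (h : Cone X) (n : ℕ) : ¬ BadS (pre X n) := by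
  rintro (⟨p, h1, h2, h3⟩ | ⟨p, h1, h2, h3⟩ | ⟨t, h1, h2⟩ | ⟨t, h1, h2, h3⟩ | ⟨p, h1, h2, h3⟩)
  · have := h.add _ _ (pre_some h1) (pre_some h2)
    rw [pre_some h3] at this; cases this
  · have := h.mul _ _ (pre_some h1) (pre_some h2)
    rw [pre_some h3] at this; cases this
  · exact h.zero _ (pre_some h1) h2
  · rcases h.tot _ h1 with h4 | h4
    · rw [pre_some h2] at h4; cases h4
    · rw [pre_some h3] at h4; cases h4
  · have := h.congr _ _ h3 (pre_some h1)
    rw [pre_some h2] at this; cases this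

open Classical in
theorem exists_cone {r : ℝ} (hr : Good r) : Cone fun t => decide (0 < ev (gR r) t) := by
  constructor
  · intro s t hs ht
    simp only [decide_eq_true_eq] at *
    rw [ev_ta]; exact add_pos hs ht
  · intro s t hs ht
    simp only [decide_eq_true_eq] at *
    rw [ev_tm]; exact mul_pos hs ht
  · intro t ht he
    simp only [decide_eq_true_eq] at *
    rw [sound hr he, ev_tg] at ht
    simp [gR] at ht
  · intro t ht
    simp only [decide_eq_true_eq]
    have h1 : ev (gR r) t ≠ 0 := by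
      intro h
      apply ht
      rw [← ev_eq_iff hr, h, ev_tg]
      simp [gR]
    rcases lt_or_gt_of_ne h1 with h2 | h2
    · right
      rw [ev_tm, ev_tg]
      simp only [gR]
      linarith
    · exact Or.inl h2
  · intro s t he hs
    simp only [decide_eq_true_eq] at *
    rwa [← sound hr he]

theorem exists_low_cone : ∃ X : ℕ → Bool, Cone X ∧ TLe (jump X) (jump fun _ => false) := by
  classical
  obtain ⟨r, hr⟩ := exists_good
  obtain ⟨X, h1, h2⟩ := lowBasis s1_BadS ⟨_, pre_of_cone (exists_cone hr)⟩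
  exact ⟨X, cone_of_pre h1, h2⟩

section

variable {r : ℝ} (hr : Good r)

/-- the ordering of the computable field given by a cone -/
def ltX (X : ℕ → Bool) (a b : (FC hr).Carrier) : Prop :=
  X (ta b.1 (tm (tg 1 0) a.1)) = true

theorem ltX_iff {X : ℕ → Bool} (hX : Cone X) (a b : (FC hr).Carrier) :
    ltX hr X a b ↔ ∃ t, evF hr t = eR hr b - eR hr a ∧ X t = true := by
  have h1 : evF hr (ta b.1 (tm (tg 1 0) a.1)) = eR hr b - eR hr a := by
    rw [evF_ta, evF_tm, evF_neg_one, eR_apply, eR_apply]; ring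
  constructor
  · intro h
    exact ⟨_, h1, h⟩
  · rintro ⟨t, h2, h3⟩
    rw [← h1, evF_eq_iff] at h2
    exact hX.congr _ _ h2 h3

theorem isOrdering_ltX {X : ℕ → Bool} (hX : Cone X) : IsOrdering (ltX hr X) := by
  constructor
  · intro a h
    obtain ⟨t, h1, h2⟩ := (ltX_iff hr hX a a).1 h
    rw [sub_self, ← evF_zero hr, evF_eq_iff] at h1
    exact hX.zero t h2 h1
  · intro a b c h h'
    obtain ⟨s, h1, h2⟩ := (ltX_iff hr hX a b).1 h
    obtain ⟨t, h3, h4⟩ := (ltX_iff hr hX b c).1 h'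
    exact (ltX_iff hr hX a c).2 ⟨ta s t, by rw [evF_ta, h1, h3]; ring, hX.add _ _ h2 h4⟩
  · intro a b
    by_cases hab : a = b
    · exact Or.inr (Or.inl hab)
    · obtain ⟨t, ht⟩ := evF_surj hr (eR hr b - eR hr a)
      have h1 : ¬ Eqv t (tg 0 0) := by
        intro h
        rw [← evF_eq_iff hr, ht, evF_zero, sub_eq_zero] at h
        exact hab ((eR hr).injective h).symm
      rcases hX.tot t h1 with h2 | h2
      · exact Or.inl ((ltX_iff hr hX a b).2 ⟨t, ht, h2⟩)
      · refine Or.inr (Or.inr ((ltX_iff hr hX b a).2 ⟨_, ?_, h2⟩))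
        rw [evF_tm, evF_neg_one, ht]; ring
  · intro a b c h
    obtain ⟨s, h1, h2⟩ := (ltX_iff hr hX a b).1 h
    refine (ltX_iff hr hX _ _).2 ⟨s, ?_, h2⟩
    rw [map_add, map_add, h1]; ring
  · intro a b h h'
    obtain ⟨s, h1, h2⟩ := (ltX_iff hr hX 0 a).1 h
    obtain ⟨t, h3, h4⟩ := (ltX_iff hr hX 0 b).1 h'
    refine (ltX_iff hr hX _ _).2 ⟨tm s t, ?_, hX.mul _ _ h2 h4⟩
    rw [evF_tm, h1, h3, map_mul, map_zero]; ring

open Classical in
theorem orderCode_tLe (X : ℕ → Bool) :
    TLe (fun n => decide (orderCode (ltX hr X) n)) X := by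
  have hdm : ∀ n, orderCode (ltX hr X) n ↔ (dm n.unpair.1 ∧ dm n.unpair.2 ∧
      X (ta n.unpair.2 (tm (tg 1 0) n.unpair.1)) = true) := by
    intro n
    constructor
    · rintro ⟨a, b, h, rfl⟩
      simp only [Nat.unpair_pair]
      exact ⟨a.2, b.2, h⟩
    · rintro ⟨h1, h2, h3⟩
      exact ⟨⟨_, h1⟩, ⟨_, h2⟩, h3, by simp⟩
  rw [tLe_iff_SI]
  have u1 : Primrec fun x : ℕ × Bool => x.1.unpair.1 :=
    Primrec.fst.comp (Primrec.unpair.comp Primrec.fst)
  have u2 : Primrec fun x : ℕ × Bool => x.1.unpair.2 :=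
    Primrec.snd.comp (Primrec.unpair.comp Primrec.fst)
  have hq : ∀ b : Bool, SI X fun x : ℕ × Bool =>
      X (ta x.1.unpair.2 (tm (tg 1 0) x.1.unpair.1)) = b := fun b =>
    SI.query.comp (f := fun x : ℕ × Bool => (ta x.1.unpair.2 (tm (tg 1 0) x.1.unpair.1), b))
      ((pta u2 (ptm (Primrec.const _) u1)).pair (Primrec.const b))
  have h : SI X fun x : ℕ × Bool =>
      ((dm x.1.unpair.1 ∧ dm x.1.unpair.2) ∧ X (ta x.1.unpair.2 (tm (tg 1 0) x.1.unpair.1)) = true) ∧
        x.2 = true ∨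
      ((¬ dm x.1.unpair.1 ∨ ¬ dm x.1.unpair.2) ∨
        X (ta x.1.unpair.2 (tm (tg 1 0) x.1.unpair.1)) = false) ∧ x.2 = false := by
    refine SI.or (SI.and (SI.and (SI.of_s1 (S1.and (s1_dm.comp u1) (s1_dm.comp u2))) (hq true))
      (SI.of_prim (Primrec.eq.comp Primrec.snd (Primrec.const _))))
      (SI.and (SI.or (SI.of_s1 (S1.or (s1_ndm.comp u1) (s1_ndm.comp u2))) (hq false))
      (SI.of_prim (Primrec.eq.comp Primrec.snd (Primrec.const _))))
  refine h.of_eq fun x => ?_
  rcases x with ⟨n, b⟩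
  simp only
  cases b
  · simp only [Bool.false_eq_true, and_false, and_true, false_or, decide_eq_false_iff_not, hdm,
      not_and, Bool.not_eq_true]
    tauto
  · simp only [and_true, Bool.true_eq_false, and_false, or_false, decide_eq_true_eq, hdm]
    tauto

end

/-! No embedding in a computable ordered field. -/

theorem sq_pos_of_ordering {K : Type} [Field K] {lt : K → K → Prop} (h : IsOrdering lt) {a : K}
    (ha : a ≠ 0) : lt 0 (a * a) := by
  rcases h.total 0 a with h1 | h1 | h1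
  · exact h.mul a a h1 h1
  · exact absurd h1.symm ha
  · have h2 : lt 0 (-a) := by
      have := h.add a 0 (-a) h1
      rwa [add_neg_cancel, zero_add] at this
    have := h.mul _ _ h2 h2
    rwa [neg_mul_neg] at this

theorem not_embed {r : ℝ} (hr : Good r) (K : ComputableField)
    (lt : K.Carrier → K.Carrier → Prop) (hlt : IsOrdering lt)
    (hc : ComputablePred (orderCode lt)) (χ : FF hr →+* K.Carrier) : False := by
  classical
  obtain ⟨fa, hfa, ha⟩ := K.add_comp
  obtain ⟨fm, hfm, hm⟩ := K.mul_comp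
  -- the elements of the field
  let yF : ℕ → FF hr := fun n => evF hr (tg 2 n)
  have hy0 : ∀ n, yF n ≠ 0 := by
    intro n h
    have h1 : ev (gR r) (tg 2 n) = 0 := congrArg Subtype.val h
    rw [ev_tg] at h1
    exact yy_ne_zero hr.tr n h1
  have hys : ∀ n, yF (n + 1) = yF n * yF n + (-2) := by
    intro n
    apply Subtype.ext
    show ev (gR r) (tg 2 (n + 1)) = ev (gR r) (tg 2 n) * ev (gR r) (tg 2 n) + ((-2 : FF hr) : ℝ)
    have h2 : ((-2 : FF hr) : ℝ) = -2 := by
      rw [Subfield.coe_neg]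
      rfl
    rw [ev_tg, ev_tg, h2]
    simp only [gR, yy]
    ring
  let c2 : K.Carrier := χ (-2)
  let y' : ℕ → ℕ := fun n => Nat.rec (χ (yF 0) : K.Carrier).1 (fun _ v => fa (fm v v) c2.1) n
  have hy' : ∀ n, y' n = (χ (yF n)).1 := by
    intro n
    induction n with
    | zero => rfl
    | succ n ih =>
      show fa (fm (y' n) (y' n)) c2.1 = _
      rw [ih, ← hm, ← ha, hys, map_add, map_mul]
  have hcy : Computable y' := by
    refine Computable.nat_rec (f := fun n : ℕ => n) (g := fun _ : ℕ => (χ (yF 0) : K.Carrier).1)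
      (h := fun (_ : ℕ) (p : ℕ × ℕ) => fa (fm p.2 p.2) c2.1) Computable.id (Computable.const _) ?_
    have h1 : Computable fun x : ℕ × (ℕ × ℕ) => x.2.2 := Computable.snd.comp Computable.snd
    exact hfa.comp (hfm.comp h1 h1) (Computable.const _)
  -- the separator
  have h0 : ComputablePred fun n : ℕ => orderCode lt (Nat.pair (0 : K.Carrier).1 (y' (2 * n))) := by
    obtain ⟨_, hd⟩ := hc
    refine ⟨fun a => Classical.dec _, ?_⟩
    have h1 : Computable fun n : ℕ => Nat.pair (0 : K.Carrier).1 (y' (2 * n)) :=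
      Primrec₂.natPair.to_comp.comp (Computable.const _)
        (hcy.comp (Primrec.nat_mul.to_comp.comp (Computable.const 2) Computable.id))
    have h2 := hd.comp h1
    exact h2.of_eq fun n => by simp
  obtain ⟨_, hd⟩ := h0
  have hiff : ∀ n, orderCode lt (Nat.pair (0 : K.Carrier).1 (y' (2 * n))) ↔
      lt 0 (χ (yF (2 * n))) := by
    intro n
    rw [hy']
    constructor
    · rintro ⟨a, b, h1, h2⟩
      rw [Nat.pair_eq_pair] at h2
      rw [Subtype.ext h2.1, Subtype.ext h2.2]
      exact h1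
    · intro h
      exact ⟨_, _, h, rfl⟩
  refine insep (S := fun n => decide (orderCode lt (Nat.pair (0 : K.Carrier).1 (y' (2 * n)))))
    (hd.of_eq fun n => by congr) ?_ ?_
  · rintro n ⟨t, ht⟩
    rw [decide_eq_true_eq, hiff]
    have h1 : yF (2 * n) = evF hr (tg 3 (Nat.pair n t)) * evF hr (tg 3 (Nat.pair n t)) := by
      rw [← evF_tm, evF_eq_iff]
      refine Eqv.symm (Eqv.ax ?_)
      unfold Ax; iterate 13 right
      left; exact ⟨(Nat.pair n t, 0, 0), ht, rfl, by simp⟩
    rw [h1, map_mul]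
    refine sq_pos_of_ordering hlt fun h2 => ?_
    have h3 : χ (yF (2 * n)) = 0 := by rw [h1, map_mul, h2, mul_zero]
    exact hy0 _ ((map_eq_zero_iff χ χ.injective).1 h3)
  · rintro n ⟨t, ht⟩
    rw [decide_eq_false_iff_not, hiff]
    intro hpos
    have h1 : - yF (2 * n) = evF hr (tg 3 (Nat.pair n t)) * evF hr (tg 3 (Nat.pair n t)) := by
      have : - yF (2 * n) = evF hr (tm (tg 1 0) (tg 2 (2 * n))) := by
        rw [evF_tm, evF_neg_one, neg_one_mul]
      rw [this, ← evF_tm, evF_eq_iff]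
      refine Eqv.symm (Eqv.ax ?_)
      unfold Ax; iterate 14 right
      left; exact ⟨(Nat.pair n t, 0, 0), ht, rfl, by simp⟩
    have h2 : lt 0 (- χ (yF (2 * n))) := by
      rw [← map_neg, h1, map_mul]
      refine sq_pos_of_ordering hlt fun h2 => ?_
      have h3 : χ (- yF (2 * n)) = 0 := by rw [h1, map_mul, h2, mul_zero]
      rw [map_neg, neg_eq_zero] at h3
      exact hy0 _ ((map_eq_zero_iff χ χ.injective).1 h3)
    have h3 := hlt.add _ _ (χ (yF (2 * n))) h2
    rw [zero_add, neg_add_cancel] at h3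
    exact hlt.irrefl _ (hlt.trans _ _ _ hpos h3)

end Pool.Agent.Y548.OF
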