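import Pool.Agent.KS6_49.L8.Y548.OF.Quo
import Pool.Agent.KS6_49.L8.Y548.OF.LB
import Pool.Agent.KS6_49.L8.Y548.Base

set_option autoImplicit false

/-! The computable field. -/

namespace Pool.Agent.Y548.OF

open Encodable Pool.Agent.Helper227

/-- A computable field: the domain is a computable set of natural numbers, and addition and
multiplication are computable. -/
structure ComputableField where
  /-- the domain -/
  dom : ℕ → Prop
  /-- the field structure on the domain -/
  fld : Field {n : ℕ // dom n}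
  dom_comp : ComputablePred dom
  add_comp : ∃ f : ℕ → ℕ → ℕ, Computable₂ f ∧
    ∀ a b : {n : ℕ // dom n}, ((a + b : {n : ℕ // dom n}) : ℕ) = f a b
  mul_comp : ∃ f : ℕ → ℕ → ℕ, Computable₂ f ∧
    ∀ a b : {n : ℕ // dom n}, ((a * b : {n : ℕ // dom n}) : ℕ) = f a b

/-- the underlying field of a computable field -/
abbrev ComputableField.Carrier (F : ComputableField) : Type := {n : ℕ // F.dom n}

instance (F : ComputableField) : Field F.Carrier := F.fld

/-- `lt` is an ordering of the field `K`. -/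
structure IsOrdering {K : Type} [Field K] (lt : K → K → Prop) : Prop where
  irrefl : ∀ a, ¬ lt a a
  trans : ∀ a b c, lt a b → lt b c → lt a c
  total : ∀ a b, lt a b ∨ a = b ∨ lt b a
  add : ∀ a b c, lt a b → lt (a + c) (b + c)
  mul : ∀ a b, lt 0 a → lt 0 b → lt 0 (a * b)

/-- The set of codes of the pairs `(a, b)` with `a < b`. -/
def orderCode {F : ComputableField} (lt : F.Carrier → F.Carrier → Prop) (n : ℕ) : Prop :=
  ∃ a b : F.Carrier, lt a b ∧ n = Nat.pair a b

theorem s1_nEqv : S1 fun x : ℕ × ℕ => ¬ Eqv x.1 x.2 := by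
  have h1 : S1 fun x : ℕ × ℕ => ∃ c : ℕ, Eqv (tm c (ta x.1 (tm (tg 1 0) x.2))) (tg 0 1) := by
    refine S1.ex (p := fun (x : ℕ × ℕ) (c : ℕ) => Eqv (tm c (ta x.1 (tm (tg 1 0) x.2))) (tg 0 1)) ?_
    exact s1_Eqv.comp (f := fun y : (ℕ × ℕ) × ℕ =>
      (tm y.2 (ta y.1.1 (tm (tg 1 0) y.1.2)), tg 0 1))
      ((ptm Primrec.snd (pta (Primrec.fst.comp Primrec.fst)
        (ptm (Primrec.const _) (Primrec.snd.comp Primrec.fst)))).pair (Primrec.const _))
  refine h1.of_eq fun x => ?_
  obtain ⟨r, hr⟩ := exists_good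
  have key : ∀ c, Eqv (tm c (ta x.1 (tm (tg 1 0) x.2))) (tg 0 1) ↔
      evF hr c * (evF hr x.1 - evF hr x.2) = 1 := by
    intro c
    rw [← evF_eq_iff hr, evF_tm, evF_ta, evF_tm, evF_neg_one, evF_one, neg_one_mul, sub_eq_add_neg]
  constructor
  · rintro ⟨c, hc⟩ h
    rw [key, (evF_eq_iff hr _ _).2 h, sub_self, mul_zero] at hc
    exact zero_ne_one hc
  · intro h
    have h2 : evF hr x.1 - evF hr x.2 ≠ 0 := fun h3 => h ((evF_eq_iff hr _ _).1 (sub_eq_zero.1 h3))
    obtain ⟨c, hc⟩ := evF_surj hr (evF hr x.1 - evF hr x.2)⁻¹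
    exact ⟨c, (key c).2 (by rw [hc, inv_mul_cancel₀ h2])⟩

/-- the domain: least codes -/
def dm (t : ℕ) : Prop := ∀ s < t, ¬ Eqv s t

theorem s1_dm : S1 dm :=
  S1.all_lt (α := ℕ) (p := fun t s => ¬ Eqv s t) (f := fun t => t)
    (s1_nEqv.comp (f := fun x : ℕ × ℕ => (x.2, x.1)) (Primrec.snd.pair Primrec.fst)) Primrec.id

theorem s1_ndm : S1 fun t => ¬ dm t := by
  have h1 : S1 fun t : ℕ => ∃ s : ℕ, s < t ∧ Eqv s t := by
    refine S1.ex (p := fun (t s : ℕ) => s < t ∧ Eqv s t) (S1.and (S1.of_prim ?_) ?_)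
    · exact Primrec.nat_lt.comp Primrec.snd Primrec.fst
    · exact s1_Eqv.comp (f := fun x : ℕ × ℕ => (x.2, x.1)) (Primrec.snd.pair Primrec.fst)
  refine h1.of_eq fun t => ?_
  unfold dm
  push Not
  rfl

theorem dm_comp : ComputablePred dm :=
  ComputablePred.computable_iff_re_compl_re'.2 ⟨s1_dm.re, s1_ndm.re⟩

theorem dm_unique {s t : ℕ} (hs : dm s) (ht : dm t) (h : Eqv s t) : s = t := by
  rcases Nat.lt_trichotomy s t with h1 | h1 | h1
  · exact absurd h (ht s h1)
  · exact h1
  · exact absurd h.symm (hs t h1)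

theorem exists_dm (t : ℕ) : ∃ s, dm s ∧ Eqv s t := by
  classical
  have hex : ∃ s, Eqv s t := ⟨t, Eqv.refl t⟩
  refine ⟨Nat.find hex, fun s hs he => ?_, Nat.find_spec hex⟩
  exact Nat.find_min hex hs (he.trans (Nat.find_spec hex))

theorem exists_nf : ∃ f : ℕ → ℕ, Computable f ∧ ∀ t, dm (f t) ∧ Eqv (f t) t := by
  refine S1.choose (p := fun t s => dm s ∧ Eqv s t) (S1.and (s1_dm.comp Primrec.snd) ?_) exists_dm
  exact s1_Eqv.comp (f := fun x : ℕ × ℕ => (x.2, x.1)) (Primrec.snd.pair Primrec.fst)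

section

variable {r : ℝ} (hr : Good r)

/-- the bijection between least codes and the field -/
noncomputable def eD : {n : ℕ // dm n} ≃ FF hr :=
  Equiv.ofBijective (fun n => evF hr n.1) (by
    constructor
    · intro s t h
      exact Subtype.ext (dm_unique s.2 t.2 ((evF_eq_iff hr _ _).1 h))
    · intro x
      obtain ⟨t, rfl⟩ := evF_surj hr x
      obtain ⟨s, h1, h2⟩ := exists_dm t
      exact ⟨⟨s, h1⟩, (evF_eq_iff hr _ _).2 h2⟩)

theorem eD_apply (n : {n : ℕ // dm n}) : eD hr n = evF hr n.1 := rfl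

/-- the computable field -/
noncomputable def FC : ComputableField where
  dom := dm
  fld := (eD hr).field
  dom_comp := dm_comp
  add_comp := by
    obtain ⟨f, hf, h⟩ := exists_nf
    refine ⟨fun a b => f (ta a b), hf.comp ta_prim.to_comp, fun a b => ?_⟩
    letI : Field {n : ℕ // dm n} := (eD hr).field
    have h1 : eD hr (a + b) = eD hr a + eD hr b := by
      rw [Equiv.add_def, Equiv.apply_symm_apply]
    rw [eD_apply, eD_apply, eD_apply, ← evF_ta, evF_eq_iff] at h1
    exact dm_unique (a + b).2 (h _).1 (h1.trans (h _).2.symm)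
  mul_comp := by
    obtain ⟨f, hf, h⟩ := exists_nf
    refine ⟨fun a b => f (tm a b), hf.comp tm_prim.to_comp, fun a b => ?_⟩
    letI : Field {n : ℕ // dm n} := (eD hr).field
    have h1 : eD hr (a * b) = eD hr a * eD hr b := by
      rw [Equiv.mul_def, Equiv.apply_symm_apply]
    rw [eD_apply, eD_apply, eD_apply, ← evF_tm, evF_eq_iff] at h1
    exact dm_unique (a * b).2 (h _).1 (h1.trans (h _).2.symm)

/-- its isomorphism with the subfield of the reals -/
noncomputable def eR : (FC hr).Carrier ≃+* FF hr := (eD hr).ringEquiv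

theorem eR_apply (n : (FC hr).Carrier) : eR hr n = evF hr n.1 := rfl

end

end Pool.Agent.Y548.OF
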