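import Pool.Agent.KS6_49.L8.Y548.OF.Tm
import Pool.Agent.KS6_49.L8.Y548.OF.Kum

set_option autoImplicit false

/-! Completeness of the equational theory. -/

namespace Pool.Agent.Y548.OF

open Encodable Polynomial

/-- the polynomial with the given list of coefficients -/
noncomputable def polyL : List ℕ → ℤ[X]
  | [] => 0
  | a :: L => C (a : ℤ) + X * polyL L

theorem polyL_inj : ∀ {L L' : List ℕ}, L.length = L'.length → polyL L = polyL L' → L = L'
  | [], [], _, _ => rfl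
  | [], _ :: _, h, _ => by simp at h
  | _ :: _, [], h, _ => by simp at h
  | a :: L, b :: L', h, h' => by
    have h1 : a = b := by
      have := congrArg (fun p => coeff p 0) h'
      simpa [polyL] using this
    subst h1
    have h2 : X * polyL L = X * polyL L' := add_left_cancel h'
    have h3 : polyL L = polyL L' := mul_left_cancel₀ X_ne_zero h2
    rw [polyL_inj (by simpa using h) h3]

theorem exists_polyL (n : ℕ) : ∀ p : ℤ[X], p.natDegree < n →
    ∃ L L' : List ℕ, L.length = L'.length ∧ polyL L - polyL L' = p := by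
  induction n with
  | zero => intro p hp; omega
  | succ n ih =>
    intro p hp
    have key : ∀ q : ℤ[X], (∃ L L' : List ℕ, L.length = L'.length ∧ polyL L - polyL L' = q) →
        ∀ a : ℤ, ∃ L L' : List ℕ, L.length = L'.length ∧ polyL L - polyL L' = q * X + C a := by
      rintro q ⟨L, L', h1, rfl⟩ a
      refine ⟨a.toNat :: L, (-a).toNat :: L', by simp [h1], ?_⟩
      have h2 : (C (a.toNat : ℤ) : ℤ[X]) - C ((-a).toNat : ℤ) = C a := by
        rw [← C_sub]
        congr 1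
        omega
      rw [polyL, polyL, ← h2]
      ring
    rcases Nat.eq_zero_or_pos p.natDegree with h0 | h0
    · rw [eq_C_of_natDegree_eq_zero h0]
      obtain ⟨L, L', h1, h2⟩ := key 0 ⟨[], [], rfl, by simp [polyL]⟩ (p.coeff 0)
      exact ⟨L, L', h1, by rw [h2]; simp⟩
    · obtain ⟨L, L', h1, h2⟩ := key _ (ih p.divX (by
        rw [natDegree_divX_eq_natDegree_tsub_one]; omega)) (p.coeff 0)
      exact ⟨L, L', h1, by rw [h2, divX_mul_X_add]⟩

/-- the interpretation of the generators in the reals -/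
noncomputable def gR (r : ℝ) : ℕ → ℕ → ℝ
  | 0, j => j
  | 1, _ => -1
  | 2, j => yy j r
  | 3, j => ww r j
  | 4, j => aeval r (polyL (Denumerable.ofNat (List ℕ) j))
  | 5, j => open Classical in if gd j then (aeval r (polyL (Denumerable.ofNat (List ℕ) j.unpair.1)) -
      aeval r (polyL (Denumerable.ofNat (List ℕ) j.unpair.2)))⁻¹ else 0
  | _ + 6, _ => 0

theorem gd_ne {r : ℝ} (hr : Transcendental ℤ r) {j : ℕ} (h : gd j) :
    aeval r (polyL (Denumerable.ofNat (List ℕ) j.unpair.1)) -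
      aeval r (polyL (Denumerable.ofNat (List ℕ) j.unpair.2)) ≠ 0 := by
  rw [← map_sub]
  intro h0
  refine hr ⟨_, ?_, h0⟩
  intro h1
  have h2 := polyL_inj h.1 (sub_eq_zero.1 h1)
  apply h.2
  have := congrArg encode h2
  simpa using this

theorem sound_sc {r : ℝ} {cond : ℕ × ℕ × ℕ → Prop} {l l' : ℕ × ℕ × ℕ → ℕ}
    (h : ∀ p, cond p → ev (gR r) (l p) = ev (gR r) (l' p)) {x : ℕ × ℕ} (hx : sc cond l l' x) :
    ev (gR r) x.1 = ev (gR r) x.2 := by
  obtain ⟨p, hc, h1, h2⟩ := hx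
  rw [← h1, ← h2]
  exact h p hc

theorem sound_ax {r : ℝ} (hr : Good r) {x : ℕ × ℕ} (hx : Ax x) :
    ev (gR r) x.1 = ev (gR r) x.2 := by
  unfold Ax at hx
  rcases hx with h | h | h | h | h | h | h | h | h | h | h | h | h | h | h | h | h | h | h | h
  · exact sound_sc (fun p _ => by simp [ev_tg, ev_ta, gR]) h
  · exact sound_sc (fun p _ => by simp only [ev_ta]; ring) h
  · exact sound_sc (fun p _ => by simp only [ev_ta]; ring) h
  · exact sound_sc (fun p _ => by simp [ev_tg, ev_ta, ev_tm, gR]) h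
  · exact sound_sc (fun p _ => by simp [ev_tg, ev_tm, gR]) h
  · exact sound_sc (fun p _ => by simp [ev_tg, ev_tm, gR]) h
  · exact sound_sc (fun p _ => by simp only [ev_tm]; ring) h
  · exact sound_sc (fun p _ => by simp only [ev_tm]; ring) h
  · exact sound_sc (fun p _ => by simp only [ev_ta, ev_tm]; ring) h
  · exact sound_sc (fun p _ => by simp [ev_tg, ev_ta, gR]) h
  · exact sound_sc (fun p _ => by simp [ev_tg, gR]) h
  · exact sound_sc (fun p _ => by simp only [ev_tg, ev_ta, ev_tm, gR, yy]; push_cast; ring) h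
  · exact sound_sc (fun p hp => by simp [ev_tg, gR, ww_of_st_zero hp]) h
  · refine sound_sc (fun p hp => ?_) h
    have h1 := ww_sq hr p.1
    simp only [ev_tg, ev_tm, gR]
    rw [← pow_two, h1]
    simp [uu, hp]
  · refine sound_sc (fun p hp => ?_) h
    have h1 := ww_sq hr p.1
    simp only [ev_tg, ev_tm, gR]
    rw [← pow_two, h1]
    simp [uu, hp]
  · exact sound_sc (fun p _ => by simp [ev_tg, gR, polyL]) h
  · refine sound_sc (fun p _ => ?_) h
    simp only [ev_tg, ev_ta, ev_tm, gR, Denumerable.ofNat_encode, polyL]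
    simp [yy]
  · refine sound_sc (fun p hp => ?_) h
    have h1 := gd_ne hr.tr hp
    simp only [ev_tg, ev_ta, ev_tm, gR]
    rw [if_pos hp]
    have h2 : aeval r (polyL (Denumerable.ofNat (List ℕ) (Nat.unpair p.1).1)) +
        -1 * aeval r (polyL (Denumerable.ofNat (List ℕ) (Nat.unpair p.1).2)) =
        aeval r (polyL (Denumerable.ofNat (List ℕ) (Nat.unpair p.1).1)) -
        aeval r (polyL (Denumerable.ofNat (List ℕ) (Nat.unpair p.1).2)) := by ring
    rw [h2, inv_mul_cancel₀ h1]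
    simp
  · refine sound_sc (fun p hp => ?_) h
    simp only [ev_tg, gR]
    rw [if_neg hp]
    simp
  · refine sound_sc (fun p _ => ?_) h
    simp only [ev_tg, gR]
    rw [add_comm 6 p.1]
    simp [gR]

theorem sound {r : ℝ} (hr : Good r) {s t : ℕ} (h : Eqv s t) : ev (gR r) s = ev (gR r) t := by
  induction h with
  | refl t => rfl
  | symm _ ih => exact ih.symm
  | trans _ _ ih1 ih2 => exact ih1.trans ih2
  | cta _ _ ih1 ih2 => rw [ev_ta, ev_ta, ih1, ih2]
  | ctm _ _ ih1 ih2 => rw [ev_tm, ev_tm, ih1, ih2]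
  | ax h => exact sound_ax hr h

/-- the setoid of provable equality -/
def eqvSetoid : Setoid ℕ := ⟨Eqv, ⟨Eqv.refl, Eqv.symm, Eqv.trans⟩⟩

/-- the presented ring -/
def QQ : Type := Quotient eqvSetoid

/-- class of a term -/
def qm (t : ℕ) : QQ := Quotient.mk eqvSetoid t

theorem qm_eq {s t : ℕ} : qm s = qm t ↔ Eqv s t := by
  constructor
  · intro h; exact Quotient.exact h
  · intro h; exact Quotient.sound h

theorem qm_surj (q : QQ) : ∃ t, q = qm t := by
  induction q using Quotient.inductionOn with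
  | _ t => exact ⟨t, rfl⟩

instance : Add QQ := ⟨Quotient.map₂ ta fun _ _ h _ _ h' => Eqv.cta h h'⟩
instance : Mul QQ := ⟨Quotient.map₂ tm fun _ _ h _ _ h' => Eqv.ctm h h'⟩
instance : Neg QQ := ⟨Quotient.map (tm (tg 1 0)) fun _ _ h => Eqv.ctm (Eqv.refl _) h⟩
instance : Zero QQ := ⟨qm (tg 0 0)⟩
instance : One QQ := ⟨qm (tg 0 1)⟩

theorem qm_ta (s t : ℕ) : qm (ta s t) = qm s + qm t := rfl
theorem qm_tm (s t : ℕ) : qm (tm s t) = qm s * qm t := rfl
theorem qm_neg (s : ℕ) : qm (tm (tg 1 0) s) = - qm s := rfl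
theorem qm_zero : qm (tg 0 0) = 0 := rfl
theorem qm_one : qm (tg 0 1) = 1 := rfl

instance : CommRing QQ where
  add_assoc a b c := by
    obtain ⟨a, rfl⟩ := qm_surj a; obtain ⟨b, rfl⟩ := qm_surj b; obtain ⟨c, rfl⟩ := qm_surj c
    refine qm_eq.2 (Eqv.ax ?_)
    unfold Ax; iterate 2 right
    left; exact ⟨(a, b, c), trivial, rfl, rfl⟩
  zero_add a := by
    obtain ⟨a, rfl⟩ := qm_surj a
    refine qm_eq.2 (Eqv.ax ?_)
    unfold Ax
    left; exact ⟨(a, 0, 0), trivial, rfl, rfl⟩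
  add_zero a := by
    obtain ⟨a, rfl⟩ := qm_surj a
    refine qm_eq.2 (Eqv.trans (t := ta (tg 0 0) a) (Eqv.ax ?_) (Eqv.ax ?_))
    · unfold Ax; iterate 1 right
      left; exact ⟨(a, tg 0 0, 0), trivial, rfl, rfl⟩
    · unfold Ax
      left; exact ⟨(a, 0, 0), trivial, rfl, rfl⟩
  nsmul := nsmulRec
  zsmul := zsmulRec
  neg_add_cancel a := by
    obtain ⟨a, rfl⟩ := qm_surj a
    refine qm_eq.2 (Eqv.ax ?_)
    unfold Ax; iterate 3 right
    left; exact ⟨(a, 0, 0), trivial, rfl, rfl⟩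
  add_comm a b := by
    obtain ⟨a, rfl⟩ := qm_surj a; obtain ⟨b, rfl⟩ := qm_surj b
    refine qm_eq.2 (Eqv.ax ?_)
    unfold Ax; iterate 1 right
    left; exact ⟨(a, b, 0), trivial, rfl, rfl⟩
  mul_assoc a b c := by
    obtain ⟨a, rfl⟩ := qm_surj a; obtain ⟨b, rfl⟩ := qm_surj b; obtain ⟨c, rfl⟩ := qm_surj c
    refine qm_eq.2 (Eqv.ax ?_)
    unfold Ax; iterate 7 right
    left; exact ⟨(a, b, c), trivial, rfl, rfl⟩
  mul_comm a b := by
    obtain ⟨a, rfl⟩ := qm_surj a; obtain ⟨b, rfl⟩ := qm_surj b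
    refine qm_eq.2 (Eqv.ax ?_)
    unfold Ax; iterate 6 right
    left; exact ⟨(a, b, 0), trivial, rfl, rfl⟩
  one_mul a := by
    obtain ⟨a, rfl⟩ := qm_surj a
    refine qm_eq.2 (Eqv.ax ?_)
    unfold Ax; iterate 4 right
    left; exact ⟨(a, 0, 0), trivial, rfl, rfl⟩
  mul_one a := by
    obtain ⟨a, rfl⟩ := qm_surj a
    refine qm_eq.2 (Eqv.trans (t := tm (tg 0 1) a) (Eqv.ax ?_) (Eqv.ax ?_))
    · unfold Ax; iterate 6 right
      left; exact ⟨(a, tg 0 1, 0), trivial, rfl, rfl⟩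
    · unfold Ax; iterate 4 right
      left; exact ⟨(a, 0, 0), trivial, rfl, rfl⟩
  zero_mul a := by
    obtain ⟨a, rfl⟩ := qm_surj a
    refine qm_eq.2 (Eqv.ax ?_)
    unfold Ax; iterate 5 right
    left; exact ⟨(a, 0, 0), trivial, rfl, rfl⟩
  mul_zero a := by
    obtain ⟨a, rfl⟩ := qm_surj a
    refine qm_eq.2 (Eqv.trans (t := tm (tg 0 0) a) (Eqv.ax ?_) (Eqv.ax ?_))
    · unfold Ax; iterate 6 right
      left; exact ⟨(a, tg 0 0, 0), trivial, rfl, rfl⟩
    · unfold Ax; iterate 5 right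
      left; exact ⟨(a, 0, 0), trivial, rfl, rfl⟩
  left_distrib a b c := by
    obtain ⟨a, rfl⟩ := qm_surj a; obtain ⟨b, rfl⟩ := qm_surj b; obtain ⟨c, rfl⟩ := qm_surj c
    refine qm_eq.2 (Eqv.ax ?_)
    unfold Ax; iterate 8 right
    left; exact ⟨(a, b, c), trivial, rfl, rfl⟩
  right_distrib a b c := by
    obtain ⟨a, rfl⟩ := qm_surj a; obtain ⟨b, rfl⟩ := qm_surj b; obtain ⟨c, rfl⟩ := qm_surj c
    have hc : ∀ s t, Eqv (tm s t) (tm t s) := fun s t => Eqv.ax (by
      unfold Ax; iterate 6 right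
      left; exact ⟨(s, t, 0), trivial, rfl, rfl⟩)
    refine qm_eq.2 (Eqv.trans (hc _ _) (Eqv.trans (t := ta (tm c a) (tm c b)) (Eqv.ax ?_)
      (Eqv.cta (hc _ _) (hc _ _))))
    unfold Ax; iterate 8 right
    left; exact ⟨(c, a, b), trivial, rfl, rfl⟩

theorem qm_nat (j : ℕ) : qm (tg 0 j) = (j : QQ) := by
  induction j with
  | zero => rw [qm_zero]; simp
  | succ j ih =>
    have h : qm (tg 0 (j + 1)) = qm (tg 0 j) + qm (tg 0 1) := by
      rw [← qm_ta]
      refine qm_eq.2 (Eqv.ax ?_)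
      unfold Ax; iterate 9 right
      left; exact ⟨(j, 0, 0), trivial, rfl, rfl⟩
    rw [h, ih, qm_one]
    push_cast; rfl

theorem qm_g1 (j : ℕ) : qm (tg 1 j) = -1 := by
  have h : qm (tg 1 j) = qm (tg 1 0) := by
    refine qm_eq.2 (Eqv.ax ?_)
    unfold Ax; iterate 10 right
    left; exact ⟨(j, 0, 0), trivial, rfl, rfl⟩
  rw [h]
  have h1 : qm (tg 1 0) * 1 = - (1 : QQ) := by
    rw [← qm_one, ← qm_tm, qm_neg]
  rwa [mul_one] at h1

/-- polynomials as elements of the presented ring -/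
noncomputable def ph : ℤ[X] →+* QQ := (aeval (R := ℤ) (qm (tg 2 0))).toRingHom

theorem ph_X : ph X = qm (tg 2 0) := by simp [ph]

theorem ph_C (a : ℤ) : ph (C a) = (a : QQ) := by simp [ph]

theorem qm_y (j : ℕ) : qm (tg 2 j) = ph (YP j) := by
  induction j with
  | zero => rw [YP, ph_X]
  | succ j ih =>
    have h : qm (tg 2 j) * qm (tg 2 j) = qm (tg 2 (j + 1)) + qm (tg 0 2) := by
      rw [← qm_ta, ← qm_tm]
      refine qm_eq.2 (Eqv.ax ?_)
      unfold Ax; iterate 11 right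
      left; exact ⟨(j, 0, 0), trivial, rfl, rfl⟩
    rw [qm_nat] at h
    rw [YP, map_sub, map_pow, ← ih, map_ofNat, pow_two, h]
    push_cast
    ring

theorem qm_P (L : List ℕ) : qm (tg 4 (encode L)) = ph (polyL L) := by
  induction L with
  | nil =>
    rw [polyL, map_zero, ← qm_zero]
    refine qm_eq.2 (Eqv.ax ?_)
    unfold Ax; iterate 15 right
    left; exact ⟨(0, 0, 0), trivial, rfl, rfl⟩
  | cons a L ih =>
    have h : qm (tg 4 (encode (a :: L))) = qm (tg 0 a) + qm (tg 2 0) * qm (tg 4 (encode L)) := by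
      rw [← qm_tm, ← qm_ta]
      refine qm_eq.2 (Eqv.ax ?_)
      unfold Ax; iterate 16 right
      left; exact ⟨(a, encode L, 0), trivial, by simp, rfl⟩
    rw [h, ih, polyL, map_add, map_mul, ph_X, ph_C, qm_nat]
    simp

theorem qm_P' (j : ℕ) : qm (tg 4 j) = ph (polyL (Denumerable.ofNat (List ℕ) j)) := by
  rw [← qm_P, Denumerable.encode_ofNat]

theorem qm_z {j : ℕ} (h : gd j) : qm (tg 5 j) *
    ph (polyL (Denumerable.ofNat (List ℕ) j.unpair.1) -
      polyL (Denumerable.ofNat (List ℕ) j.unpair.2)) = 1 := by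
  rw [map_sub, ← qm_P', ← qm_P', sub_eq_add_neg, ← qm_neg, ← qm_ta, ← qm_tm, ← qm_one]
  refine qm_eq.2 (Eqv.ax ?_)
  unfold Ax; iterate 17 right
  left; exact ⟨(j, 0, 0), h, rfl, rfl⟩

theorem isUnit_ph {p : ℤ[X]} (hp : p ≠ 0) : IsUnit (ph p) := by
  obtain ⟨L, L', h1, h2⟩ := exists_polyL (p.natDegree + 1) p (by omega)
  have h3 : gd (Nat.pair (encode L) (encode L')) := by
    unfold gd
    simp only [Nat.unpair_pair, Denumerable.ofNat_encode]
    refine ⟨h1, fun h => hp ?_⟩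
    rw [← h2, encode_injective h, sub_self]
  have h4 := qm_z h3
  simp only [Nat.unpair_pair, Denumerable.ofNat_encode, h2] at h4
  exact IsUnit.of_mul_eq_one _ (by rw [mul_comm]; exact h4)

/-- rational functions as elements of the presented ring -/
noncomputable def ps : FractionRing ℤ[X] →+* QQ :=
  IsLocalization.lift (M := nonZeroDivisors ℤ[X]) (g := ph)
    fun y => isUnit_ph (nonZeroDivisors.ne_zero y.2)

theorem ps_alg (p : ℤ[X]) : ps (algebraMap ℤ[X] (FractionRing ℤ[X]) p) = ph p :=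
  IsLocalization.lift_eq _ p

section real

variable {r : ℝ} (hr : Good r)

/-- evaluation of the presented ring in the reals -/
noncomputable def TT : QQ →+* ℝ where
  toFun := Quotient.lift (ev (gR r)) fun _ _ h => sound hr h
  map_one' := by
    show ev (gR r) (tg 0 1) = 1
    rw [ev_tg]; simp [gR]
  map_zero' := by
    show ev (gR r) (tg 0 0) = 0
    rw [ev_tg]; simp [gR]
  map_add' a b := by
    obtain ⟨a, rfl⟩ := qm_surj a; obtain ⟨b, rfl⟩ := qm_surj b
    exact ev_ta _ _ _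
  map_mul' a b := by
    obtain ⟨a, rfl⟩ := qm_surj a; obtain ⟨b, rfl⟩ := qm_surj b
    exact ev_tm _ _ _

theorem TT_qm (t : ℕ) : TT hr (qm t) = ev (gR r) t := rfl

theorem TT_ph (p : ℤ[X]) : TT hr (ph p) = aeval r p := by
  have h : (TT hr).comp ph = (aeval (R := ℤ) r).toRingHom := by
    refine Polynomial.ringHom_ext (fun a => ?_) ?_
    · rw [RingHom.comp_apply, ph_C]; simp
    · rw [RingHom.comp_apply, ph_X, TT_qm, ev_tg]; simp [gR, yy]
  exact congrArg (fun f : ℤ[X] →+* ℝ => f p) h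

theorem TT_ps (f : FractionRing ℤ[X]) : TT hr (ps f) ∈ V0 r hr.tr := by
  obtain ⟨p, q, hq, rfl⟩ := IsFractionRing.div_surjective (A := ℤ[X]) f
  have h : ((TT hr).comp ps) (algebraMap ℤ[X] (FractionRing ℤ[X]) p /
      algebraMap ℤ[X] (FractionRing ℤ[X]) q) = aeval r p / aeval r q := by
    rw [map_div₀, RingHom.comp_apply, RingHom.comp_apply, ps_alg, ps_alg, TT_ph, TT_ph]
  refine ⟨p, q, nonZeroDivisors.ne_zero hq, ?_⟩
  exact h

theorem mem_V0_exists {x : ℝ} (hx : x ∈ V0 r hr.tr) : ∃ f, TT hr (ps f) = x := by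
  obtain ⟨p, q, hq, rfl⟩ := hx
  refine ⟨algebraMap ℤ[X] (FractionRing ℤ[X]) p / algebraMap ℤ[X] (FractionRing ℤ[X]) q, ?_⟩
  have h : ((TT hr).comp ps) (algebraMap ℤ[X] (FractionRing ℤ[X]) p /
      algebraMap ℤ[X] (FractionRing ℤ[X]) q) = aeval r p / aeval r q := by
    rw [map_div₀, RingHom.comp_apply, RingHom.comp_apply, ps_alg, ps_alg, TT_ph, TT_ph]
  exact h

end real

/-- elements of the presented ring involving only the first `m` square roots -/
def NN : ℕ → Set QQ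
  | 0 => Set.range ps
  | m + 1 => {q | ∃ a ∈ NN m, ∃ b ∈ NN m, q = a + b * qm (tg 3 m)}

theorem ww_mul (k : ℕ) : ∃ f, qm (tg 3 k) * qm (tg 3 k) = ps f := by
  rcases st_cases k with h | h | h
  · refine ⟨1, ?_⟩
    have : qm (tg 3 k) = 1 := by
      rw [← qm_one]
      refine qm_eq.2 (Eqv.ax ?_)
      unfold Ax; iterate 12 right
      left; exact ⟨(k, 0, 0), h, rfl, rfl⟩
    rw [this, map_one, mul_one]
  · refine ⟨algebraMap ℤ[X] (FractionRing ℤ[X]) (YP (2 * k.unpair.1)), ?_⟩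
    rw [ps_alg, ← qm_y, ← qm_tm]
    refine qm_eq.2 (Eqv.ax ?_)
    unfold Ax; iterate 13 right
    left; exact ⟨(k, 0, 0), h, rfl, rfl⟩
  · refine ⟨algebraMap ℤ[X] (FractionRing ℤ[X]) (-YP (2 * k.unpair.1)), ?_⟩
    rw [ps_alg, map_neg, ← qm_y, ← qm_tm, ← qm_neg]
    refine qm_eq.2 (Eqv.ax ?_)
    unfold Ax; iterate 14 right
    left; exact ⟨(k, 0, 0), h, rfl, rfl⟩

theorem ww_zero {k : ℕ} (h : st k = 0) : qm (tg 3 k) = 1 := by
  rw [← qm_one]
  refine qm_eq.2 (Eqv.ax ?_)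
  unfold Ax; iterate 12 right
  left; exact ⟨(k, 0, 0), h, rfl, rfl⟩

theorem ps_mem_NN (m : ℕ) (f : FractionRing ℤ[X]) : ps f ∈ NN m := by
  induction m with
  | zero => exact ⟨f, rfl⟩
  | succ m ih =>
    have h0 : (0 : QQ) ∈ NN m := by
      clear ih
      induction m with
      | zero => exact ⟨0, map_zero _⟩
      | succ m ih => exact ⟨0, ih, 0, ih, by simp⟩
    exact ⟨_, ih, 0, h0, by simp⟩

theorem NN_le_succ {m : ℕ} {q : QQ} (h : q ∈ NN m) : q ∈ NN (m + 1) :=
  ⟨q, h, 0, by have := ps_mem_NN m 0; rwa [map_zero] at this, by simp⟩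

theorem NN_mono {m n : ℕ} (h : m ≤ n) {q : QQ} (hq : q ∈ NN m) : q ∈ NN n := by
  induction h with
  | refl => exact hq
  | step _ ih => exact NN_le_succ ih

theorem NN_add {m : ℕ} : ∀ {a b : QQ}, a ∈ NN m → b ∈ NN m → a + b ∈ NN m := by
  induction m with
  | zero =>
    rintro _ _ ⟨f, rfl⟩ ⟨g, rfl⟩
    exact ⟨f + g, map_add _ _ _⟩
  | succ m ih =>
    rintro _ _ ⟨a, ha, b, hb, rfl⟩ ⟨c, hc, d, hd, rfl⟩
    exact ⟨a + c, ih ha hc, b + d, ih hb hd, by ring⟩

theorem NN_mul {m : ℕ} : ∀ {a b : QQ}, a ∈ NN m → b ∈ NN m → a * b ∈ NN m := by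
  induction m with
  | zero =>
    rintro _ _ ⟨f, rfl⟩ ⟨g, rfl⟩
    exact ⟨f * g, map_mul _ _ _⟩
  | succ m ih =>
    rintro _ _ ⟨a, ha, b, hb, rfl⟩ ⟨c, hc, d, hd, rfl⟩
    obtain ⟨f, hf⟩ := ww_mul m
    refine ⟨a * c + b * d * ps f, NN_add (ih ha hc) (ih (ih hb hd) (ps_mem_NN m f)),
      a * d + b * c, NN_add (ih ha hd) (ih hb hc), ?_⟩
    rw [← hf]; ring

theorem exists_NN (t : ℕ) : ∃ m, qm t ∈ NN m := by
  classical
  induction t using Nat.strong_induction_on with
  | _ t ih =>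
    rcases t_cases t with ⟨c, j, rfl⟩ | ⟨s, u, rfl, hs, hu⟩ | ⟨s, u, rfl, hs, hu⟩
    · match c with
      | 0 => exact ⟨0, (j : FractionRing ℤ[X]), by rw [qm_nat]; simp⟩
      | 1 => exact ⟨0, -1, by rw [qm_g1]; simp⟩
      | 2 => exact ⟨0, algebraMap _ _ (YP j), by rw [qm_y, ps_alg]⟩
      | 3 =>
        exact ⟨j + 1, 0, by have := ps_mem_NN j 0; rwa [map_zero] at this, 1,
          by have := ps_mem_NN j 1; rwa [map_one] at this, by simp⟩
      | 4 => exact ⟨0, algebraMap _ _ (polyL (Denumerable.ofNat (List ℕ) j)), by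
          rw [qm_P', ps_alg]⟩
      | 5 =>
        by_cases h : gd j
        · have h1 := qm_z h
          set p := polyL (Denumerable.ofNat (List ℕ) j.unpair.1) -
            polyL (Denumerable.ofNat (List ℕ) j.unpair.2) with hp
          have hp0 : p ≠ 0 := by
            intro h0
            have h2 := polyL_inj h.1 (sub_eq_zero.1 h0)
            apply h.2
            have := congrArg encode h2
            simpa using this
          refine ⟨0, (algebraMap _ _ p)⁻¹, ?_⟩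
          have h2 : ps (algebraMap _ _ p)⁻¹ * ph p = 1 := by
            rw [← ps_alg, ← map_mul, inv_mul_cancel₀, map_one]
            intro h3
            exact hp0 ((IsFractionRing.injective ℤ[X] (FractionRing ℤ[X])) (by rw [h3, map_zero]))
          exact (isUnit_ph hp0).mul_left_injective (by
            show ps (algebraMap _ _ p)⁻¹ * ph p = qm (tg 5 j) * ph p
            rw [h1, h2])
        · refine ⟨0, 0, ?_⟩
          rw [map_zero, ← qm_zero]
          refine qm_eq.2 (Eqv.symm (Eqv.ax ?_))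
          unfold Ax; iterate 18 right
          left; exact ⟨(j, 0, 0), h, rfl, rfl⟩
      | c + 6 =>
        refine ⟨0, 0, ?_⟩
        rw [map_zero, ← qm_zero]
        refine qm_eq.2 (Eqv.symm (Eqv.ax ?_))
        unfold Ax; iterate 19 right
        exact ⟨(c, j, 0), trivial, by simp only [add_comm], rfl⟩
    · obtain ⟨m, hm⟩ := ih s hs
      obtain ⟨n, hn⟩ := ih u hu
      exact ⟨max m n, by
        rw [qm_ta]
        exact NN_add (NN_mono (le_max_left _ _) hm) (NN_mono (le_max_right _ _) hn)⟩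
    · obtain ⟨m, hm⟩ := ih s hs
      obtain ⟨n, hn⟩ := ih u hu
      exact ⟨max m n, by
        rw [qm_tm]
        exact NN_mul (NN_mono (le_max_left _ _) hm) (NN_mono (le_max_right _ _) hn)⟩

section real

variable {r : ℝ} (hr : Good r)

theorem TT_NN {m : ℕ} : ∀ {q : QQ}, q ∈ NN m → TT hr q ∈ (VV r hr m).1 := by
  induction m with
  | zero =>
    rintro _ ⟨f, rfl⟩
    exact TT_ps hr f
  | succ m ih =>
    rintro _ ⟨a, ha, b, hb, rfl⟩
    refine ⟨_, ih ha, _, ih hb, ?_⟩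
    rw [map_add, map_mul, TT_qm hr (tg 3 m), ev_tg]
    rfl

theorem TT_inj {m : ℕ} : ∀ {q : QQ}, q ∈ NN m → TT hr q = 0 → q = 0 := by
  induction m with
  | zero =>
    rintro _ ⟨f, rfl⟩ h
    have h1 : ((TT hr).comp ps) f = 0 := h
    have h2 := (map_eq_zero_iff _ ((TT hr).comp ps).injective).1 h1
    rw [h2, map_zero]
  | succ m ih =>
    rintro _ ⟨a, ha, b, hb, rfl⟩ h
    rw [map_add, map_mul, TT_qm hr (tg 3 m), ev_tg] at h
    have h : TT hr a + TT hr b * ww r m = 0 := h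
    by_cases hm : st m = 0
    · rw [ww_zero hm, mul_one]
      rw [ww_of_st_zero hm, mul_one, ← map_add] at h
      exact ih (NN_add ha hb) h
    · have h1 := ww_not_mem hr hm
      have h2 : TT hr b = 0 := by
        by_contra h3
        apply h1
        have : ww r m = -TT hr a * (TT hr b)⁻¹ := by
          rw [eq_mul_inv_iff_mul_eq₀ h3]
          linarith [mul_comm (ww r m) (TT hr b)]
        rw [this]
        exact (VV r hr m).1.mul_mem ((VV r hr m).1.neg_mem (TT_NN hr ha))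
          ((VV r hr m).1.inv_mem (TT_NN hr hb))
      rw [h2, zero_mul, add_zero] at h
      rw [ih ha h, ih hb h2]
      simp

theorem TT_surj {m : ℕ} : ∀ {x : ℝ}, x ∈ (VV r hr m).1 → ∃ q ∈ NN m, TT hr q = x := by
  induction m with
  | zero =>
    intro x hx
    obtain ⟨f, hf⟩ := mem_V0_exists hr hx
    exact ⟨_, ⟨f, rfl⟩, hf⟩
  | succ m ih =>
    rintro _ ⟨a, ha, b, hb, rfl⟩
    obtain ⟨a', ha', rfl⟩ := ih ha
    obtain ⟨b', hb', rfl⟩ := ih hb
    refine ⟨_, ⟨a', ha', b', hb', rfl⟩, ?_⟩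
    rw [map_add, map_mul, TT_qm hr (tg 3 m), ev_tg]
    rfl

include hr in
/-- Completeness: equality of values is provable equality. -/
theorem ev_eq_iff (s t : ℕ) : ev (gR r) s = ev (gR r) t ↔ Eqv s t := by
  constructor
  · intro h
    rw [← TT_qm hr, ← TT_qm hr, ← sub_eq_zero, ← map_sub] at h
    obtain ⟨q, hq⟩ : ∃ q, q = qm s - qm t := ⟨_, rfl⟩
    obtain ⟨u, hu⟩ := qm_surj q
    obtain ⟨m, hm⟩ := exists_NN u
    rw [← hu] at hm
    rw [← hq] at h
    have h1 := TT_inj hr hm h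
    rw [hq, sub_eq_zero] at h1
    exact qm_eq.1 h1
  · exact sound hr

/-- the field, as a subfield of the reals: the values of all terms -/
noncomputable def FF : Subfield ℝ where
  carrier := {x | ∃ t, ev (gR r) t = x}
  mul_mem' := by
    rintro _ _ ⟨s, rfl⟩ ⟨t, rfl⟩
    exact ⟨tm s t, ev_tm _ _ _⟩
  one_mem' := ⟨tg 0 1, by rw [ev_tg]; simp [gR]⟩
  add_mem' := by
    rintro _ _ ⟨s, rfl⟩ ⟨t, rfl⟩
    exact ⟨ta s t, ev_ta _ _ _⟩
  zero_mem' := ⟨tg 0 0, by rw [ev_tg]; simp [gR]⟩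
  neg_mem' := by
    rintro _ ⟨s, rfl⟩
    exact ⟨tm (tg 1 0) s, by rw [ev_tm, ev_tg]; simp [gR]⟩
  inv_mem' := by
    rintro _ ⟨s, rfl⟩
    obtain ⟨m, hm⟩ := exists_NN s
    have h1 := TT_NN hr hm
    obtain ⟨q, _, hq⟩ := TT_surj hr ((VV r hr m).1.inv_mem h1)
    obtain ⟨u, rfl⟩ := qm_surj q
    exact ⟨u, hq⟩

/-- value of a term in the field -/
noncomputable def evF (t : ℕ) : FF hr := ⟨ev (gR r) t, t, rfl⟩

theorem evF_surj : Function.Surjective (evF hr) := by
  rintro ⟨_, t, rfl⟩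
  exact ⟨t, rfl⟩

theorem evF_eq_iff (s t : ℕ) : evF hr s = evF hr t ↔ Eqv s t := by
  rw [← ev_eq_iff hr, evF, evF, Subtype.mk.injEq]

theorem evF_ta (s t : ℕ) : evF hr (ta s t) = evF hr s + evF hr t := Subtype.ext (ev_ta _ _ _)

theorem evF_tm (s t : ℕ) : evF hr (tm s t) = evF hr s * evF hr t := Subtype.ext (ev_tm _ _ _)

theorem evF_zero : evF hr (tg 0 0) = 0 := Subtype.ext (by
  show ev (gR r) (tg 0 0) = 0
  rw [ev_tg]; simp [gR])

theorem evF_one : evF hr (tg 0 1) = 1 := Subtype.ext (by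
  show ev (gR r) (tg 0 1) = 1
  rw [ev_tg]; simp [gR])

theorem evF_neg_one : evF hr (tg 1 0) = -1 := Subtype.ext (by
  show ev (gR r) (tg 1 0) = -1
  rw [ev_tg]; simp [gR])

end real

end Pool.Agent.Y548.OF
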